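import Pool.Agent.Helper807.BT.Disc4

set_option autoImplicit false

/-!
# Two-weight testing theorem for the Bergman projection on the unit disc

For every pair of weights (positive locally integrable functions on the disc), in particular for
every pair of subharmonic weights, the two-weight boundedness (B) of the Bergman projection is
equivalent to the testing conditions (T) on Carleson boxes.
-/

namespace Pool.Agent.Results.MP_c45a97_an.BergmanTesting

open Pool.Agent.Helper807.BT

/-- For all weights `w`, `σ` on the unit disc, condition (B) holds if and only if condition (T)
holds. -/
theorem result : ∀ w σ : ℂ → ℝ, IsWeight w → IsWeight σ → (CondB w σ ↔ CondT w σ) :=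
  fun w σ hw hσ => B_iff_T w σ hw hσ

end Pool.Agent.Results.MP_c45a97_an.BergmanTesting
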